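import Pool.Agent.V7H20.PK.TwoK

/-!
# The pole relation over number fields and the Hasse principle

Let `K` be any number field.  The relation `R_K` of the problem does not belong to the Boolean
algebra of relations between two elements of `K` generated by the relations `V_{a,b}(K) ≠ ∅`, for
families of closed subschemes of projective spaces over the plane which satisfy the Hasse
principle over `K` outside a curve, by the local conditions at single finite places, and by the
conjunctions of local conditions at the infinite places and at all finite places not above a
prime `1` modulo `4`.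

The proof.  We restrict the relations to a rational number `a` and a rational integer `b = n`.  A
family either has no point off finitely many fibres or has points given by algebraic functions;
by Puiseux expansions at infinity and the inverse function theorem the fibre over
`m + (c / p ^ k) ^ M` has then points over the completions at all places above `p`, if `p` splits
completely in a suitable number field, `M` is divisible by a certain number and `k` is large.  The
condition at a finite place is closed, since the completion is locally compact; the condition at a
real place is semialgebraic over `K`, hence locally constant off a finite set.  By a colouring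
argument every finite set of such conditions which holds for integers in every residue class also
holds for a rational number whose denominator is a power of such a prime `p`, and this number has
a pole above `p`, while `n` has none.
-/

set_option autoImplicit false

namespace Pool.Agent.Results.MP_a59382_lc.NumberFieldFamiliesH20

open Pool.Agent.V7H20.PK
open Pool.Agent.TH766.HP (Rich)

theorem result :
    -- for every number field the relation `R_K` is not in the Boolean algebra
    (∀ (K : Type) [Field K] [NumberField K],
      ¬ Alg2 K {p | p % 4 = 1} {x | PoleRel K {p | p % 4 = 1} x.1 x.2}) ∧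
    -- the general form, for every rich set `Q` of primes
    (∀ (K : Type) [Field K] [NumberField K] (Q : Set ℕ), Rich Q →
      ¬ Alg2 K Q {x | PoleRel K Q x.1 x.2} ∧
      -- a relation `D` of the algebra which implies the pole relation is small on the integers
      ∀ D : Set (K × K), Alg2 K Q D → (∀ x ∈ D, PoleRel K Q x.1 x.2) →
        ∃ B : Set ℤ, B.Finite ∧ ∀ n : ℤ, n ∉ B → ∀ a₁ b₁ : ℤ, 0 < b₁ →
          ∃ a b : ℤ, 0 < b ∧ b₁ ∣ b ∧ b₁ ∣ a - a₁ ∧ ∀ m : ℤ, b ∣ m - a →
            PoleRel K Q (m : K) (n : K) ∧ ((m : K), (n : K)) ∉ D) := by
  have hint : ∀ (K : Type) [Field K] [NumberField K] (Q : Set ℕ) (m n : ℤ),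
      PoleRel K Q (m : K) (n : K) := fun K _ _ Q m n v _ h =>
    absurd h (not_lt.2 (val_int_le v m))
  have main : ∀ (K : Type) [Field K] [NumberField K] (Q : Set ℕ), Rich Q →
      ¬ Alg2 K Q {x | PoleRel K Q x.1 x.2} := by
    intro K _ _ Q hQ hA
    obtain ⟨B, hB, h⟩ := pole_sub Q hQ _ hA fun x hx => hx
    obtain ⟨n, hn⟩ := hB.infinite_compl.nonempty
    obtain ⟨a, b, -, -, -, hab⟩ := h n hn 0 1 one_pos
    exact hab a (by simp) (hint K Q a n)
  refine ⟨fun K _ _ => main K _ Pool.Agent.TH766.HP.four, fun K _ _ Q hQ => ⟨main K Q hQ, ?_⟩⟩
  intro D hD hDP
  obtain ⟨B, hB, h⟩ := pole_sub Q hQ D hD hDP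
  refine ⟨B, hB, fun n hn a₁ b₁ hb₁ => ?_⟩
  obtain ⟨a, b, h1, h2, h3, h4⟩ := h n hn a₁ b₁ hb₁
  exact ⟨a, b, h1, h2, h3, fun m hm => ⟨hint K Q m n, h4 m hm⟩⟩

end Pool.Agent.Results.MP_a59382_lc.NumberFieldFamiliesH20
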