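import Pool.Agent.V7H85.QS.Thin
import Pool.Agent.Results.MP_a59382_lc.QuadraticFamilies

/-!
# The pole relation, pairs and systems of quadratic equations

Let `K` be a number field and let `Q` be a rich set of rational primes, for example the primes
`p = 1 mod 4`.  The starting files exclude definitions of the relation `R_K` of the problem by
finite unions of relations given by single equations (cubic equations, families of quadratic
equations, values of rational functions on products of norm varieties, quadrics and quartic double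
covers).  Here we add systems of quadratic equations

  `∃ z, q_1(a, b, z) = ⋯ = q_m(a, b, z) = 0`,

of degree at most two in `(a, z)`, with any number of variables `z` and with coefficients which are
arbitrary functions of `b`:

(i) all pairs of quadratic equations, without any condition (they may be singular, reducible,
cones, families of points, curves of genus one, …);

(ii) systems of `m` equations for arbitrary `m`, if for one `b` without pole above `Q` all nontrivial
combinations of the quadratic forms have rank at least `m (m - 1) + 3` and there are no singular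
solutions, for example smooth complete intersections of `m` quadrics in the projective space of
dimension `m ^ 2 + 1` or larger.

The proof.  The elements without pole above `Q` form a flat set: rational functions of one variable
with values in it are constant.

If `P` is a smooth zero of a system `B(x, x) = 0` of `m` quadratic equations then for a general
tangent vector `y` at `P` the zeros `x` of the system modulo the line `K B(y, y)` in the hyperplane
`B(P, x) ∈ K B(y, y)` give zeros `κ(x) P - 2 r(x) x` of `B`; by induction on `m` there are polynomial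
curves of zeros through `P` in general directions if all ranks are large.

For `m = 2` and without condition on the ranks the construction works at all smooth zeros `P`
except for those for which one of the forms of the pencil vanishes on the tangent space.  The
exceptional zeros lie in finitely many proper subspaces if the pencil is nonsingular and there are at
least five variables.  If the pencil is singular then the kernels of its forms of maximal rank span
a totally isotropic subspace, and the zeros outside of two proper subspaces are connected by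
rational curves.  If the pencil is nonsingular and there are at most four variables then
elimination leads to a plane curve.  One concludes by induction on the number of variables.
-/

set_option autoImplicit false

namespace Pool.Agent.Results.MP_a59382_lc.QuadraticSystemsH85

open MvPolynomial Pool.Agent.TH766.HP Pool.Agent.TH783.CE Pool.Agent.V7H85.QS Matrix
open Pool.Agent.Results.MP_a59382_lc.CubicEquations (PoleRel)
open Pool.Agent.Results.MP_a59382_lc.UnirationalFibres (Block)
open Pool.Agent.Results.MP_a59382_lc.QuadraticFamilies (Union)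

/-- Systems of `m` quadratic equations in `(a, z)`, given by symmetric matrices, such that `m` is at
most two or all nontrivial combinations have rank at least `m (m - 1) + 3` and there are no singular
solutions. -/
def Admissible {K : Type} [Field K] {m n : ℕ} (A : Fin m → Matrix (Fin (n + 2)) (Fin (n + 2)) K) :
    Prop :=
  (∀ j, (A j).IsSymm) ∧ (m ≤ 2 ∨
    ((∀ c : Fin m → K, c ≠ 0 → m * (m - 1) + 3 ≤ (∑ j, c j • A j).rank) ∧
    ∀ (a : K) (z : Fin n → K), (∀ j, form (A j) a z = 0) →
      ∀ c : Fin m → K, (∑ j, c j • A j) *ᵥ pt a z = 0 → c = 0))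

/-- The relation given by a finite union of systems; the coefficients are arbitrary functions of
`b`. -/
def Systems {K : Type} [Field K] {s : ℕ} {m n : Fin s → ℕ}
    (A : ∀ i, K → Fin (m i) → Matrix (Fin (n i + 2)) (Fin (n i + 2)) K) (a b : K) : Prop :=
  ∃ i, ∃ z : Fin (n i) → K, ∀ j, form (A i b j) a z = 0

theorem result :
    -- (1) for every number field `R_K` is not a finite union of pairs of quadratic equations
    (∀ (K : Type) [Field K] [NumberField K] (k : ℕ) (n : Fin k → ℕ)
      (f g : ∀ i, MvPolynomial (Fin 2 ⊕ Fin (n i)) K),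
      (∀ i, ∀ e ∈ (f i).support, e (Sum.inl 0) + ∑ j, e (Sum.inr j) ≤ 2) →
      (∀ i, ∀ e ∈ (g i).support, e (Sum.inl 0) + ∑ j, e (Sum.inr j) ≤ 2) →
      ¬ ∀ a b : K, (∃ i, ∃ z : Fin (n i) → K, eval (Sum.elim ![a, b] z) (f i) = 0 ∧
        eval (Sum.elim ![a, b] z) (g i) = 0) ↔ PoleRel K {p | p % 4 = 1} a b) ∧
    -- (2) unions of the relations of `QuadraticFamilies` and of systems of quadratic equations
    (∀ (K : Type) [Field K] [NumberField K],
      ∀ (k h l : ℕ) (n : Fin k → ℕ) (m : Fin h → ℕ)
      (f : ∀ i, MvPolynomial (Fin 2 ⊕ Fin (n i)) K) (g : ∀ i, MvPolynomial (Fin 3 ⊕ Fin (m i)) K),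
      (∀ i, ∀ e ∈ (f i).support, e (Sum.inl 0) + ∑ j, e (Sum.inr j) ≤ 3) →
      (∀ i, ∀ e ∈ (g i).support, e (Sum.inl 0) + ∑ j, e (Sum.inr j) ≤ 2) →
      ∀ (r : Fin l → ℕ) (d : ∀ i, Fin (r i) → ℕ) (S : ∀ i, K → ∀ j, Set (Fin (d i j + 1) → K))
        (p q : ∀ i, K → MvPolynomial ((j : Fin (r i)) × Fin (d i j + 1)) K)
        (s : ℕ) (m' n' : Fin s → ℕ)
        (A : ∀ i, K → Fin (m' i) → Matrix (Fin (n' i + 2)) (Fin (n' i + 2)) K),
      (∃ b ∈ NoPole K {p | p % 4 = 1}, (∀ i j, Block (S i b j)) ∧ ∀ i, Admissible (A i b)) →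
      ¬ ∀ a b : K, (Union f g S p q a b ∨ Systems A a b) ↔ PoleRel K {p | p % 4 = 1} a b) ∧
    -- (3) the general form, for every rich set of primes
    (∀ (K : Type) [Field K] [NumberField K] (Q : Set ℕ), Rich Q →
      ∀ (k h l : ℕ) (n : Fin k → ℕ) (m : Fin h → ℕ)
      (f : ∀ i, MvPolynomial (Fin 2 ⊕ Fin (n i)) K) (g : ∀ i, MvPolynomial (Fin 3 ⊕ Fin (m i)) K),
      (∀ i, ∀ e ∈ (f i).support, e (Sum.inl 0) + ∑ j, e (Sum.inr j) ≤ 3) →
      (∀ i, ∀ e ∈ (g i).support, e (Sum.inl 0) + ∑ j, e (Sum.inr j) ≤ 2) →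
      ∀ (r : Fin l → ℕ) (d : ∀ i, Fin (r i) → ℕ) (S : ∀ i, K → ∀ j, Set (Fin (d i j + 1) → K))
        (p q : ∀ i, K → MvPolynomial ((j : Fin (r i)) × Fin (d i j + 1)) K)
        (s : ℕ) (m' n' : Fin s → ℕ)
        (A : ∀ i, K → Fin (m' i) → Matrix (Fin (n' i + 2)) (Fin (n' i + 2)) K),
      ∀ b ∈ NoPole K Q, (∀ i j, Block (S i b j)) → (∀ i, Admissible (A i b)) →
      (∀ a : K, Union f g S p q a b ∨ Systems A a b → PoleRel K Q a b) →
      Thin {a : K | Union f g S p q a b ∨ Systems A a b} ∧
      ∀ B : ℤ, ∃ t : ℤ, B < t ∧ PoleRel K Q (t : K) b ∧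
        ¬ (Union f g S p q (t : K) b ∨ Systems A (t : K) b)) ∧
    -- (4) one system of high rank: all solutions are singular
    (∀ (K : Type) [Field K] [NumberField K] (Q : Set ℕ), Rich Q → ∀ (m n : ℕ)
      (A : K → Fin m → Matrix (Fin (n + 2)) (Fin (n + 2)) K), ∀ b ∈ NoPole K Q,
      (∀ j, (A b j).IsSymm) →
      (∀ c : Fin m → K, c ≠ 0 → m * (m - 1) + 3 ≤ (∑ j, c j • A b j).rank) →
      (∀ (a : K) (z : Fin n → K), (∀ j, form (A b j) a z = 0) → PoleRel K Q a b) →
      ∀ (a : K) (z : Fin n → K), (∀ j, form (A b j) a z = 0) →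
        ∃ c : Fin m → K, c ≠ 0 ∧ (∑ j, c j • A b j) *ᵥ pt a z = 0) := by
  have hno : ∀ (K : Type) [Field K] [NumberField K] (Q : Set ℕ) (b : K), b ∈ NoPole K Q →
      ∀ a : K, PoleRel K Q a b → a ∈ NoPole K Q := by
    intro K _ _ Q b hb a ha v hv
    by_contra hcon
    exact absurd (ha v hv (not_le.1 hcon)) (not_lt.2 (hb v hv))
  have hint : ∀ (K : Type) [Field K] [NumberField K] (Q : Set ℕ) (t : ℤ) (b : K),
      PoleRel K Q (t : K) b := by
    intro K _ _ Q t b v _ hv'
    exfalso
    have h3 : v.valuation K ((t : NumberField.RingOfIntegers K) : K) ≤ 1 :=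
      v.valuation_le_one (K := K) (t : NumberField.RingOfIntegers K)
    have h4 : ((t : NumberField.RingOfIntegers K) : K) = (t : K) := by simp
    rw [h4] at h3
    exact absurd hv' (not_lt.2 h3)
  have main : ∀ (K : Type) [Field K] [NumberField K] (Q : Set ℕ), Rich Q →
      ∀ (k h l : ℕ) (n : Fin k → ℕ) (m : Fin h → ℕ)
      (f : ∀ i, MvPolynomial (Fin 2 ⊕ Fin (n i)) K) (g : ∀ i, MvPolynomial (Fin 3 ⊕ Fin (m i)) K),
      (∀ i, ∀ e ∈ (f i).support, e (Sum.inl 0) + ∑ j, e (Sum.inr j) ≤ 3) →
      (∀ i, ∀ e ∈ (g i).support, e (Sum.inl 0) + ∑ j, e (Sum.inr j) ≤ 2) →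
      ∀ (r : Fin l → ℕ) (d : ∀ i, Fin (r i) → ℕ) (S : ∀ i, K → ∀ j, Set (Fin (d i j + 1) → K))
        (p q : ∀ i, K → MvPolynomial ((j : Fin (r i)) × Fin (d i j + 1)) K)
        (s : ℕ) (m' n' : Fin s → ℕ)
        (A : ∀ i, K → Fin (m' i) → Matrix (Fin (n' i + 2)) (Fin (n' i + 2)) K),
      ∀ b ∈ NoPole K Q, (∀ i j, Block (S i b j)) → (∀ i, Admissible (A i b)) →
      (∀ a : K, Union f g S p q a b ∨ Systems A a b → PoleRel K Q a b) →
      Thin {a : K | Union f g S p q a b ∨ Systems A a b} ∧
      ∀ B : ℤ, ∃ t : ℤ, B < t ∧ PoleRel K Q (t : K) b ∧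
        ¬ (Union f g S p q (t : K) b ∨ Systems A (t : K) b) := by
    intro K _ _ Q hQ k h l n m f g hf hg r d S p q s m' n' A b hb hS hA hU
    obtain ⟨h2, -⟩ := QuadraticFamilies.result.2.1 K Q hQ k h l n m f g hf hg r d S p q b hb hS
      fun a ha => hU a (Or.inl ha)
    have h1 : Thin (⋃ i ∈ (Set.univ : Set (Fin s)), {a : K | ∃ z : Fin (n' i) → K,
        ∀ j, form (A i b j) a z = 0}) := by
      refine Thin.biUnion Set.finite_univ fun i _ => ?_
      have hval : ∀ (a : K) (z : Fin (n' i) → K), (∀ j, form (A i b j) a z = 0) → a ∈ NoPole K Q :=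
        fun a z hz => hno K Q b hb a (hU a (Or.inr ⟨i, z, hz⟩))
      obtain ⟨hA1, hA2 | ⟨hA2, hA3⟩⟩ := hA i
      · exact sys_thin (flat_noPole (K := K) hQ) hA2 (A i b) hA1 hval
      · refine Thin.of_finite (Set.finite_empty.subset ?_)
        rintro a ⟨z, hz⟩
        obtain ⟨c, hc0, hc⟩ := sys_sing (flat_noPole (K := K) hQ) (A i b) hA1 hA2 hval a z hz
        exact hc0 (hA3 a z hz c hc)
    have h3 : Thin {a : K | Union f g S p q a b ∨ Systems A a b} := by
      refine (h2.union h1).mono ?_
      rintro a (ha | ⟨i, ha⟩)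
      · exact Or.inl ha
      · exact Or.inr (Set.mem_biUnion (Set.mem_univ i) ha)
    refine ⟨h3, fun B => ?_⟩
    obtain ⟨t, ht, ht'⟩ := h3.exists_int B
    exact ⟨t, ht, hint K Q t b, ht'⟩
  refine ⟨?_, ?_, main, ?_⟩
  · intro K _ _ k n f g hf hg hiff
    have hM : ∀ (i : Fin k) (b : K), ∃ A : Fin 2 → Matrix (Fin (n i + 2)) (Fin (n i + 2)) K,
        (∀ j, (A j).IsSymm) ∧ ∀ (a : K) (z : Fin (n i) → K), (∀ j, form (A j) a z = 0) ↔
          (eval (Sum.elim ![a, b] z) (f i) = 0 ∧ eval (Sum.elim ![a, b] z) (g i) = 0) := by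
      intro i b
      obtain ⟨M, hM1, hM2⟩ := exists_matrix b (f i) (hf i)
      obtain ⟨M', hM1', hM2'⟩ := exists_matrix b (g i) (hg i)
      refine ⟨![M, M'], fun j => ?_, fun a z => ?_⟩
      · fin_cases j
        · exact hM1
        · exact hM1'
      · rw [Fin.forall_fin_two]
        simp only [Matrix.cons_val_zero, Matrix.cons_val_one, hM2, hM2']
    choose A hA1 hA2 using hM
    have hb : (0 : K) ∈ NoPole K {p | p % 4 = 1} := fun v _ => by
      rw [map_zero]
      exact zero_le_one
    have h1 : Thin (⋃ i ∈ (Set.univ : Set (Fin k)), {a : K | ∃ z : Fin (n i) → K,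
        ∀ j, form (A i 0 j) a z = 0}) := by
      refine Thin.biUnion Set.finite_univ fun i _ => ?_
      exact sys_thin (flat_noPole (K := K) four) le_rfl (A i 0) (hA1 i 0) fun a z hz =>
        hno K _ 0 hb a ((hiff a 0).1 ⟨i, z, (hA2 i 0 a z).1 hz⟩)
    obtain ⟨t, -, ht⟩ := h1.exists_int 0
    obtain ⟨i, z, hz⟩ := (hiff t 0).2 (hint K _ t 0)
    exact ht (Set.mem_biUnion (Set.mem_univ i) ⟨z, (hA2 i 0 t z).2 hz⟩)
  · intro K _ _ k h l n m f g hf hg r d S p q s m' n' A ⟨b, hb, hS, hA⟩ hiff
    obtain ⟨-, h1⟩ := main K {p | p % 4 = 1} four k h l n m f g hf hg r d S p q s m' n' A b hb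
      hS hA fun a ha => (hiff a b).1 ha
    obtain ⟨t, -, ht1, ht2⟩ := h1 0
    exact ht2 ((hiff t b).2 ht1)
  · intro K _ _ Q hQ m n A b hb hA1 hA2 hU a z hz
    exact sys_sing (flat_noPole (K := K) hQ) (A b) hA1 hA2
      (fun a z hz => hno K Q b hb a (hU a z hz)) a z hz

end Pool.Agent.Results.MP_a59382_lc.QuadraticSystemsH85
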