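import Pool.Agent.V7H58.EC.Nf
import Pool.Agent.V7H58.EC.Quo
import Pool.Agent.V7H58.EC.Mixed
import Pool.Agent.V7H58.EC.Near
import Pool.Agent.Results.MP_a59382_lc.UnirationalFibres
import Pool.Agent.V7H20.PK.TwoK

/-!
# The pole relation is not defined by functions on double covers of products of lines

Let `K` be a number field. We consider the `K`-points of the varieties

  `w_j² = e_j ∏_{i ∈ ε_j} f_i(x_i)`   (`j ∈ J`)                              (*)

where the `f_i` are non-constant polynomials in one variable whose squarefree parts have degree at most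
three: elliptic curves, Kummer surfaces of products of elliptic curves and other elliptic K3 surfaces,
Calabi–Yau double covers of products of lines, and so on. More generally we consider subsets of the
`K`-points which are closed under the moves which change one `x_i` to `ξ` with
`f_i(ξ) = τ² f_i(x_i)` and multiply the `w_j`, `i ∈ ε_j`, by `τ`. Such are the `K`-points of all
quotients of products of the curves `y_i² = f_i(x_i)` by groups of changes of signs, and of the twists
of these quotients by characters.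

A set `T` of points is *rigid* for a subset `O` of `K` if every polynomial function with values in `O`
on `T` has finitely many values on `T`.

(1) If `O` is bounded at one place of `K` (finite or infinite) and no squarefree part has degree two
then these sets are rigid for `O`. So are elliptic curves without finitely many `K`-rational points
(and the origin).
(2) If `O` is the ring of the elements without pole above a rich set `Q` of primes, for example the
primes `p = 1 mod 4`, then they are rigid, degree two included. So are the blocks of the starting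
result `UnirationalFibres` (unirational varieties, norm varieties, affine quadrics, double covers
branched along smooth quartics), and the images of products of blocks and of a rigid set under rational
maps whose denominator depends on the coordinates of the blocks only.
(3) The equations (*) and the quotients define sets which are closed under moves.
(4) Finite products, finite unions and polynomial images of rigid sets are rigid, and so is every set
with a Zariski dense rigid subset. So the `K`-points of an affine variety are rigid if it is dominated,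
by a polynomial map, by a product of such sets which is Zariski dense in it; for example quotients by
arbitrary finite groups of products of elliptic curves of positive rank without `K`-rational points.
(5) The relation `R_K` of the problem is not of the form `D ∨ Ξ`, where `D` is in the Boolean algebra of
the result `NumberFieldFamiliesH20` (families with the Hasse principle and local conditions) and where
`Ξ` is a finite union of relations: `a` is a value of the polynomial `P_b` on the set `T_b`, `T_b` rigid;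
the condition is needed for infinitely many integers `b = n` only.
(6) is the general form, for rich sets of primes.
(7) For every set `Q` of primes which is not empty, the pole relation for `Q` is not a relation `Ξ`.

The proof. Let `h` be a cubic polynomial without multiple roots. The `x`-coordinate of the double of a
point of `κ h(x) = y²` does not depend on `κ`. At a place `u` above `2` the doubling expands near
infinity; for the other points a compactness argument for the sum of the `x`-coordinates of `P + Q`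
and `P - Q` shows: there is a finite set `E`, which does not depend on `κ`, such that for all `κ` and
all points of `κ h(x) = y²` over `K` with `x ∉ E` there are infinitely many points over `K`, and their
`x`-coordinates are unbounded at every place. So a polynomial function with values in `O` is constant
along the moves of one coordinate `x_i ∉ E_i`. These constancies are polynomial identities. They remain
true over the algebraic closure, where one can move the coordinates to `0`. So every value is a value
at a point whose coordinates are in finite sets.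
-/

set_option autoImplicit false

namespace Pool.Agent.Results.MP_a59382_lc.RigidCoversH58

open MvPolynomial IsDedekindDomain NumberField
open Pool.Agent.TH766.HP Pool.Agent.TH783.CE
open Pool.Agent.V7H20.PK (Alg2)
open Pool.Agent.Results.MP_a59382_lc.CubicEquations (PoleRel)
open Pool.Agent.Results.MP_a59382_lc.UnirationalFibres (Block)

/-- The set `O` is bounded at a finite or infinite place of `K`. -/
def BoundedAtAPlace {K : Type} [Field K] [NumberField K] (O : Set K) : Prop :=
  (∃ (v : HeightOneSpectrum (𝓞 K)) (B : WithZero (Multiplicative ℤ)), ∀ x ∈ O,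
    v.valuation K x ≤ B) ∨ ∃ (σ : K →+* ℂ) (B : ℝ), ∀ x ∈ O, ‖σ x‖ ≤ B

section

variable {K : Type} [Field K]

/-- The polynomial `f` is not constant and its squarefree part has degree at most three: `f = q² h`,
`h` without multiple roots and of degree at most three. -/
def AtMostCubic (f : Polynomial K) : Prop :=
  f.natDegree ≠ 0 ∧ ∃ q h : Polynomial K, f = q ^ 2 * h ∧ h.Separable ∧ h.natDegree ≤ 3

/-- The same, with `h` of degree `0`, `1` or `3`. -/
def OddCubic (f : Polynomial K) : Prop :=
  f.natDegree ≠ 0 ∧ ∃ q h : Polynomial K, f = q ^ 2 * h ∧ h.Separable ∧ h.natDegree ≤ 3 ∧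
    h.natDegree ≠ 2

/-- The `K`-points of the variety `w_j² = e_j ∏_{i ∈ ε_j} f_i(x_i)`. -/
def Cover {ι J : Type} (f : ι → Polynomial K) (e : J → K) (ε : J → Finset ι) :
    Set (ι ⊕ J → K) :=
  {z | ∀ j, z (Sum.inr j) ^ 2 = e j * ∏ i ∈ ε j, (f i).eval (z (Sum.inl i))}

/-- The point with the `i`-th coordinate `x_i` changed to `ξ` and with `w_j` multiplied by `τ` for all
`j` with `i ∈ ε_j`. -/
def move {ι J : Type} [DecidableEq ι] (ε : J → Finset ι) (i : ι) (z : ι ⊕ J → K) (ξ τ : K) :
    ι ⊕ J → K :=
  Sum.elim (Function.update (fun k => z (Sum.inl k)) i ξ)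
    (fun j => z (Sum.inr j) * if i ∈ ε j then τ else 1)

/-- The set `Y` is closed under the moves with `f_i(ξ) = τ² f_i(x_i)`. -/
def ClosedUnderMoves {ι J : Type} [DecidableEq ι] (f : ι → Polynomial K) (ε : J → Finset ι)
    (Y : Set (ι ⊕ J → K)) : Prop :=
  ∀ z ∈ Y, ∀ i, ∀ ξ τ : K, (f i).eval ξ = τ ^ 2 * (f i).eval (z (Sum.inl i)) →
    move ε i z ξ τ ∈ Y

/-- The `K`-points of the quotient of the product of the curves `y_i² = f_i(x_i)` by the group of the
changes of signs of the `y_i` which fix the products `z_A` of the `y_i`, `i ∈ A`, for all `A ∈ 𝒜`; and,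
for other constants `c` than `1`, of twists of it. The coordinates are the `x_i` and the `z_A`. -/
def Quotient {ι : Type} [DecidableEq ι] (f : ι → Polynomial K) (𝒜 : Finset (Finset ι))
    (c : 𝒜 → 𝒜 → K) : Set (ι ⊕ 𝒜 → K) :=
  {z | (∀ A : 𝒜, (A : Finset ι) = ∅ → z (Sum.inr A) = 1) ∧
    ∀ A B D : 𝒜, (D : Finset ι) = symmDiff (A : Finset ι) B →
      z (Sum.inr A) * z (Sum.inr B) =
        c A B * z (Sum.inr D) * ∏ i ∈ (A : Finset ι) ∩ B, (f i).eval (z (Sum.inl i))}

/-- The `K`-points of the curve `w² = f(x)` with `x` not in the finite set `P`. The third coordinate is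
`1 / ∏ (x - c)`, so that the polynomial functions are the rational functions without other poles. -/
def Punctured (f : Polynomial K) (P : Finset K) : Set (Fin 3 → K) :=
  {z | z 1 ^ 2 = f.eval (z 0) ∧ z 2 * ∏ c ∈ P, (z 0 - c) = 1}

/-- Every polynomial function with values in `O` on the set `T` has finitely many values on `T`. -/
def Rigid (O : Set K) {σ : Type} (T : Set (σ → K)) : Prop :=
  ∀ p : MvPolynomial σ K, (∀ z ∈ T, eval z p ∈ O) → ((fun z => eval z p) '' T).Finite

/-- The product of finitely many sets of points. -/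
def Product {ι : Type} {σ : ι → Type} (T : ∀ i, Set (σ i → K)) : Set ((i : ι) × σ i → K) :=
  {z | ∀ i, (fun k => z ⟨i, k⟩) ∈ T i}

/-- The image of the product of the sets `S j` and of `T` under the rational map with the components
`P k / q`; the denominator `q` depends on the coordinates of the `S j` only. -/
def Image {r : ℕ} {d : Fin r → ℕ} (S : ∀ j, Set (Fin (d j + 1) → K)) {σ τ : Type}
    (T : Set (σ → K)) (P : τ → MvPolynomial (((j : Fin r) × Fin (d j + 1)) ⊕ σ) K)
    (q : MvPolynomial ((j : Fin r) × Fin (d j + 1)) K) : Set (τ → K) :=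
  {z | ∃ (y : (j : Fin r) × Fin (d j + 1) → K) (x : σ → K), (∀ j, (fun k => y ⟨j, k⟩) ∈ S j) ∧
    x ∈ T ∧ eval y q ≠ 0 ∧ z = fun k => eval (Sum.elim y x) (P k) / eval y q}

end

/-- The data of a disjunction of `l` formulas in `a` and `b`; the `i`-th says that `a` is a value of the
polynomial `P i b` on the set `T i b`. -/
structure Values (K : Type) [Field K] where
  /-- the number of the formulas -/
  l : ℕ
  /-- the numbers of the coordinates of the points -/
  s : Fin l → ℕ
  /-- the sets of points -/
  T : ∀ i, K → Set (Fin (s i) → K)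
  /-- the polynomials -/
  P : ∀ i, K → MvPolynomial (Fin (s i)) K

/-- One of the formulas holds. -/
def Values.Holds {K : Type} [Field K] (Ξ : Values K) (a b : K) : Prop :=
  ∃ i, ∃ z ∈ Ξ.T i b, a = eval z (Ξ.P i b)

/-- For this `b` the sets `T` are rigid for the ring of the elements without pole above `Q`. -/
def Values.RigidAt {K : Type} [Field K] [NumberField K] (Ξ : Values K) (Q : Set ℕ) (b : K) : Prop :=
  ∀ i, Rigid (NoPole K Q) (Ξ.T i b)

theorem noPole_of {K : Type} [Field K] [NumberField K] {Q : Set ℕ} {a b : K} (hb : b ∈ NoPole K Q)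
    (h : PoleRel K Q a b) : a ∈ NoPole K Q := by
  intro v hv
  by_contra hcon
  exact absurd (h v hv (not_le.1 hcon)) (not_lt.2 (hb v hv))

theorem poleRel_int {K : Type} [Field K] [NumberField K] (Q : Set ℕ) (m : ℤ) (b : K) :
    PoleRel K Q (m : K) b :=
  fun v _ h => absurd h (not_lt.2 (Pool.Agent.V7H20.PK.val_int_le v m))

theorem result :
    -- (1) functions which are bounded at one place: covers and punctured elliptic curves
    (∀ (K : Type) [Field K] [NumberField K] (O : Set K), BoundedAtAPlace O →
      (∀ (ι J : Type) [Finite ι] [Finite J] [DecidableEq ι] (f : ι → Polynomial K),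
        (∀ i, OddCubic (f i)) → ∀ (e : J → K) (ε : J → Finset ι) (Y : Set (ι ⊕ J → K)),
        Y ⊆ Cover f e ε → ClosedUnderMoves f ε Y → Rigid O Y) ∧
      ∀ (f : Polynomial K) (P : Finset K), f.natDegree = 3 → f.Separable →
        (∀ c ∈ P, ∃ w, w ^ 2 = f.eval c) → Rigid O (Punctured f P)) ∧
    -- (2) functions without poles above a rich set of primes: covers, blocks and images
    (∀ (K : Type) [Field K] [NumberField K] (Q : Set ℕ), Rich Q →
      (∀ (ι J : Type) [Finite ι] [Finite J] [DecidableEq ι] (f : ι → Polynomial K),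
        (∀ i, AtMostCubic (f i)) → ∀ (e : J → K) (ε : J → Finset ι) (Y : Set (ι ⊕ J → K)),
        Y ⊆ Cover f e ε → ClosedUnderMoves f ε Y → Rigid (NoPole K Q) Y) ∧
      (∀ (n : ℕ) (S : Set (Fin (n + 1) → K)), Block S → Rigid (NoPole K Q) S) ∧
      ∀ (r : ℕ) (d : Fin r → ℕ) (S : ∀ j, Set (Fin (d j + 1) → K)), (∀ j, Block (S j)) →
        ∀ (σ τ : Type) [Finite σ] (T : Set (σ → K)), Rigid (NoPole K Q) T →
        ∀ (P : τ → MvPolynomial (((j : Fin r) × Fin (d j + 1)) ⊕ σ) K)
          (q : MvPolynomial ((j : Fin r) × Fin (d j + 1)) K),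
        Rigid (NoPole K Q) (Image S T P q)) ∧
    -- (3) covers and quotients are closed under moves
    (∀ (K : Type) [Field K] (ι : Type) [DecidableEq ι] (f : ι → Polynomial K),
      (∀ (J : Type) (e : J → K) (ε : J → Finset ι), ClosedUnderMoves f ε (Cover f e ε)) ∧
      ∀ (𝒜 : Finset (Finset ι)) (c : 𝒜 → 𝒜 → K), ∅ ∈ 𝒜 →
        Quotient f 𝒜 c ⊆ Cover f (fun A => c A A) (fun A : 𝒜 => (A : Finset ι)) ∧
        ClosedUnderMoves f (fun A : 𝒜 => (A : Finset ι)) (Quotient f 𝒜 c)) ∧
    -- (4) products, unions, polynomial images and Zariski dense subsets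
    (∀ (K : Type) [Field K] (O : Set K),
      (∀ (ι : Type) [Finite ι] (σ : ι → Type) [∀ i, Finite (σ i)] (T : ∀ i, Set (σ i → K)),
        (∀ i, Rigid O (T i)) → Rigid O (Product T)) ∧
      (∀ (ι : Type) [Finite ι] (σ : Type) (T : ι → Set (σ → K)),
        (∀ i, Rigid O (T i)) → Rigid O (⋃ i, T i)) ∧
      (∀ (σ τ : Type) (T : Set (σ → K)) (g : τ → MvPolynomial σ K), Rigid O T →
        Rigid O ((fun z k => eval z (g k)) '' T)) ∧
      ∀ (σ : Type) (T Y : Set (σ → K)), T ⊆ Y →
        (∀ g : MvPolynomial σ K, (∀ z ∈ T, eval z g = 0) → ∀ z ∈ Y, eval z g = 0) →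
        Rigid O T → Rigid O Y) ∧
    -- (5) the relation `R_K` is not of the form `D ∨ Ξ`
    (∀ (K : Type) [Field K] [NumberField K] (D : Set (K × K)) (Ξ : Values K),
      Alg2 K {p | p % 4 = 1} D → {n : ℤ | Ξ.RigidAt {p | p % 4 = 1} (n : K)}.Infinite →
      ¬ ∀ a b : K, ((a, b) ∈ D ∨ Ξ.Holds a b) ↔ PoleRel K {p | p % 4 = 1} a b) ∧
    -- (6) the general form, for every rich set of primes and one line `b = n`
    (∀ (K : Type) [Field K] [NumberField K] (Q : Set ℕ), Rich Q → ∀ D : Set (K × K), Alg2 K Q D →
      (∀ x ∈ D, PoleRel K Q x.1 x.2) →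
      ∃ B : Set ℤ, B.Finite ∧ ∀ n : ℤ, n ∉ B → ∀ Ξ : Values K, Ξ.RigidAt Q (n : K) →
        (∀ a : K, Ξ.Holds a n → PoleRel K Q a n) → ∀ a₁ b₁ : ℤ, 0 < b₁ → ∀ M : ℤ, ∃ m : ℤ, M < m ∧
          b₁ ∣ m - a₁ ∧ PoleRel K Q (m : K) n ∧ ((m : K), (n : K)) ∉ D ∧ ¬ Ξ.Holds (m : K) n) ∧
    -- (7) all sets of primes which are not empty
    (∀ (K : Type) [Field K] [NumberField K] (Q : Set ℕ), (∃ p ∈ Q, p.Prime) →
      BoundedAtAPlace (NoPole K Q) ∧
      (∀ Ξ : Values K, ∀ b ∈ NoPole K Q, Ξ.RigidAt Q b →
        (∀ a : K, Ξ.Holds a b → PoleRel K Q a b) → {a : K | Ξ.Holds a b}.Finite) ∧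
      ∀ Ξ : Values K, (∃ b ∈ NoPole K Q, Ξ.RigidAt Q b) →
        ¬ ∀ a b : K, Ξ.Holds a b ↔ PoleRel K Q a b) := by
  -- finiteness of the values
  have fin : ∀ (K : Type) [Field K] [NumberField K] (Q : Set ℕ), ∀ b ∈ NoPole K Q,
      ∀ Ξ : Values K, Ξ.RigidAt Q b → (∀ a : K, Ξ.Holds a b → PoleRel K Q a b) →
        {a : K | Ξ.Holds a b}.Finite := by
    intro K _ _ Q b hb Ξ hΞ h
    have h1 : {a : K | Ξ.Holds a b} = ⋃ i, (fun z => eval z (Ξ.P i b)) '' Ξ.T i b := by
      ext a
      simp only [Values.Holds, Set.mem_ofPred_eq, Set.mem_iUnion, Set.mem_image]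
      exact ⟨fun ⟨i, z, hz, he⟩ => ⟨i, z, hz, he.symm⟩, fun ⟨i, z, hz, he⟩ => ⟨i, z, hz, he.symm⟩⟩
    rw [h1]
    exact Set.finite_iUnion fun i => hΞ i _ fun z hz =>
      noPole_of hb (h _ ⟨i, z, hz, rfl⟩)
  have int_noPole : ∀ (K : Type) [Field K] [NumberField K] (Q : Set ℕ) (n : ℤ),
      (n : K) ∈ NoPole K Q := by
    intro K _ _ Q n
    refine noPole_of (b := 0) ?_ (poleRel_int Q n 0)
    intro v _
    rw [map_zero]
    exact zero_le
  -- the general form
  have key : ∀ (K : Type) [Field K] [NumberField K] (Q : Set ℕ), Rich Q →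
      ∀ D : Set (K × K), Alg2 K Q D → (∀ x ∈ D, PoleRel K Q x.1 x.2) →
      ∃ B : Set ℤ, B.Finite ∧ ∀ n : ℤ, n ∉ B → ∀ Ξ : Values K, Ξ.RigidAt Q (n : K) →
        (∀ a : K, Ξ.Holds a n → PoleRel K Q a n) → ∀ a₁ b₁ : ℤ, 0 < b₁ → ∀ M : ℤ, ∃ m : ℤ, M < m ∧
          b₁ ∣ m - a₁ ∧ PoleRel K Q (m : K) n ∧ ((m : K), (n : K)) ∉ D ∧ ¬ Ξ.Holds (m : K) n := by
    intro K _ _ Q hQ D hD hDP
    obtain ⟨B, hB, h⟩ := Pool.Agent.V7H20.PK.pole_sub Q hQ D hD hDP
    refine ⟨B, hB, fun n hn Ξ hΞ hs a₁ b₁ hb₁ M => ?_⟩
    obtain ⟨a, b, hb, hbb, haa, hab⟩ := h n hn a₁ b₁ hb₁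
    have hfin := fin K Q n (int_noPole K _ n) Ξ hΞ hs
    have h5 : {m : ℤ | (m : K) ∈ {a : K | Ξ.Holds a n}}.Finite :=
      hfin.preimage Int.cast_injective.injOn
    obtain ⟨M', hM'⟩ := h5.bddAbove
    set k : ℤ := |a| + |M| + |M'| + 1 with hk
    have hk1 : k ≤ b * k := by
      have h0 : 0 ≤ k := by positivity
      nlinarith
    have ha := neg_abs_le a
    have hM1 := le_abs_self M
    have hM2 := le_abs_self M'
    refine ⟨a + b * k, by rw [hk] at hk1 ⊢; linarith [abs_nonneg M'], ?_,
      poleRel_int Q _ (n : K), hab _ ⟨k, by ring⟩, fun hh => ?_⟩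
    · have e : a + b * k - a₁ = (a - a₁) + b * k := by ring
      rw [e]
      exact dvd_add haa (hbb.mul_right k)
    · have h6 : a + b * k ≤ M' := hM' hh
      have : |a| + |M| + |M'| + 1 ≤ b * k := by rw [hk] at hk1 ⊢; exact hk1
      linarith [abs_nonneg M]
  refine ⟨?_, ?_, ?_, ?_, ?_, key, ?_⟩
  · intro K _ _ O hO
    refine ⟨?_, ?_⟩
    · intro ι J _ _ _ f hf e ε Y hY hYc
      exact Pool.Agent.V7H58.EC.cover_fin two_ne_zero
        (fun i => Pool.Agent.V7H58.EC.good_of_odd hO (hf i)) e ε hY hYc
    · intro f P hd hs hP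
      obtain ⟨v, hv, hvO⟩ := Pool.Agent.V7H58.EC.BddSome.lc hO
      exact Pool.Agent.V7H58.EC.pct_fin hv two_ne_zero hvO hd hs hP
  · intro K _ _ Q hQ
    obtain ⟨φ⟩ : Nonempty (K →+* ℂ) := inferInstance
    refine ⟨?_, ?_, ?_⟩
    · intro ι J _ _ _ f hf e ε Y hY hYc
      obtain ⟨p, hp, hpQ, -⟩ := hQ ∅ 0 (by simp)
      exact Pool.Agent.V7H58.EC.cover_fin two_ne_zero
        (fun i => Pool.Agent.V7H58.EC.good_of_small hQ ⟨p, hpQ, hp.out⟩ (hf i)) e ε hY hYc
    · intro n S hS
      exact Pool.Agent.V7H58.EC.block_rigid (flat_noPole (K := K) hQ) φ hS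
    · intro r d S hS σ τ _ T hT P q
      exact Pool.Agent.V7H58.EC.mixed_rigid (flat_noPole (K := K) hQ) φ hS hT P q
  · intro K _ ι _ f
    exact ⟨fun J e ε => Pool.Agent.V7H58.EC.cover_closed f e ε, fun 𝒜 c h0 =>
      ⟨Pool.Agent.V7H58.EC.quo_cover f 𝒜 c h0, Pool.Agent.V7H58.EC.quo_closed f 𝒜 c⟩⟩
  · intro K _ O
    exact ⟨fun ι _ σ _ T hT => Pool.Agent.V7H58.EC.Rigid.pi hT,
      fun ι _ σ T hT => Pool.Agent.V7H58.EC.Rigid.union hT,
      fun σ τ T g hT => Pool.Agent.V7H58.EC.Rigid.image hT g,
      fun σ T Y hTY h hT => Pool.Agent.V7H58.EC.Rigid.dense hTY h hT⟩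
  · intro K _ _ D Ξ hD hinf hiff
    obtain ⟨B, hB, h⟩ := key K _ four D hD fun x hx => (hiff x.1 x.2).1 (Or.inl hx)
    obtain ⟨n, hn, hnB⟩ := (hinf.sdiff hB).nonempty
    obtain ⟨m, -, -, h2, h3, h4⟩ := h n hnB Ξ hn (fun a ha => (hiff a n).1 (Or.inr ha)) 0 1 one_pos 0
    rcases (hiff m n).2 h2 with h6 | h6
    · exact h3 h6
    · exact h4 h6
  · intro K _ _ Q hQ
    refine ⟨Pool.Agent.V7H58.EC.noPole_bdd hQ, fun Ξ b hb hΞ h => fin K Q b hb Ξ hΞ h, ?_⟩
    intro Ξ ⟨b, hb, hΞ⟩ hiff
    have hfin := fin K Q b hb Ξ hΞ fun a ha => (hiff a b).1 ha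
    have hsub : Set.range (fun n : ℤ => (n : K)) ⊆ {a : K | Ξ.Holds a b} := by
      rintro _ ⟨n, rfl⟩
      exact (hiff n b).2 (poleRel_int Q n b)
    exact Set.infinite_range_of_injective (Int.cast_injective (α := K)) (hfin.subset hsub)

end Pool.Agent.Results.MP_a59382_lc.RigidCoversH58
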