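import Pool.Agent.V7H87.UN.Core
import Pool.Agent.V7H87.UN.Form

/-!
# The pole relation over number fields: unions of two kinds of relations

Two kinds of definitions of the relation `R_K` of the problem have been excluded before, by different
methods. (A) Relations `D` of the Boolean algebra `Alg2` generated by families of projective schemes
over the plane which satisfy the Hasse principle over `K` off a curve, by local conditions at one
finite place, and by conjunctions of local conditions at the infinite places and at all finite places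
not above `Q` (result `NumberFieldFamiliesH20`; the method is local). (B) Disjunctions `Φ` of
existential formulas of small degree or with few or algebraic witnesses (starting results
`CubicEquations`, `QuadraticFamilies`, `QuarticDoubleCovers`, `UnirationalFibres`,
`AlmostAllIntegers`; the method is geometric, and these formulas need not satisfy any local-global
principle). Since existential formulas may be combined by disjunction, one has to exclude the unions of
both kinds. This is done here, over every number field and for every rich set of primes, and the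
conditions on the formulas are only needed on infinitely many lines `b = n`.

(1) `R_K` is not of the form `D ∨ Φ`.
(2) Over `ℚ` it is not of the form `D ∨ Φ ∨ Ψ`, `Ψ` a disjunction of quadratic equations of rank at
least five with coefficients of arbitrary degree (as in `RankFive`).
(3) If `D ∨ Φ` implies the pole relation on one line `b = n`, `n` an integer outside a finite set which
depends on `D` only, then every residue class of integers contains a residue class `a + b ℤ` in which
`D` holds for no `m` at all and in which `Φ` holds for a thin set of `m` only (so that both fail for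
infinitely many positive `m`), although the pole relation holds for all of them. So `D ∨ Φ` is nowhere
the pole relation, not even locally in the congruence topology.

The proof. Restricted to the line, `D` is decided by local data; if it implies the pole relation it is
nowhere dense on the integers. `Φ` implies the pole relation on the line, hence holds for a thin set.
Thin sets are stable under affine changes of the parameter, and by Hilbert's irreducibility theorem they
do not contain all large integers of a residue class.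
-/

set_option autoImplicit false

namespace Pool.Agent.Results.MP_a59382_lc.UnionsH87

open MvPolynomial
open Pool.Agent.TH766.HP Pool.Agent.TH783.CE
open Pool.Agent.V7H20.PK (Alg2)
open Pool.Agent.Results.MP_a59382_lc.CubicEquations (PoleRel)
open Pool.Agent.Results.MP_a59382_lc.QuadraticFamilies (Union)
open Pool.Agent.Results.MP_a59382_lc.UnirationalFibres (Block)
open Pool.Agent.R565.QR (spec Solvable)

/-- The data of a disjunction of existential formulas in `a` and `b` (as in the starting result
`AlmostAllIntegers`): `k` equations `∃ z, f(a, b, z) = 0`, `h` equations `∃ w z, g(a, b, w, z) = 0`,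
`l` formulas which say that `a` is a value of `p / q` on a product of blocks `S` depending on `b`, and
`u` formulas `∃ w, B(F_1(a, b, w) = 0, …, F_s(a, b, w) = 0)` with a Boolean function `B`. -/
structure Formula (K : Type) [Field K] where
  /-- the number of the formulas of the first kind -/
  k : ℕ
  /-- the numbers of their quantifiers -/
  n : Fin k → ℕ
  /-- their polynomials -/
  f : ∀ i, MvPolynomial (Fin 2 ⊕ Fin (n i)) K
  /-- the number of the formulas of the second kind -/
  h : ℕ
  /-- the numbers of their quantifiers `z` -/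
  m : Fin h → ℕ
  /-- their polynomials -/
  g : ∀ i, MvPolynomial (Fin 3 ⊕ Fin (m i)) K
  /-- the number of the formulas of the third kind -/
  l : ℕ
  /-- the numbers of the blocks -/
  r : Fin l → ℕ
  /-- the dimensions of the blocks -/
  d : ∀ i, Fin (r i) → ℕ
  /-- the blocks -/
  S : ∀ i, K → ∀ j, Set (Fin (d i j + 1) → K)
  /-- the numerators -/
  p : ∀ i, K → MvPolynomial ((j : Fin (r i)) × Fin (d i j + 1)) K
  /-- the denominators -/
  q : ∀ i, K → MvPolynomial ((j : Fin (r i)) × Fin (d i j + 1)) K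
  /-- the number of the formulas of the fourth kind -/
  u : ℕ
  /-- the numbers of their quantifiers -/
  c : Fin u → ℕ
  /-- the numbers of their equations -/
  s : Fin u → ℕ
  /-- their polynomials -/
  F : ∀ i, Fin (s i) → MvPolynomial (Fin 2 ⊕ Fin (c i)) K
  /-- their Boolean functions -/
  B : ∀ i, (Fin (s i) → Prop) → Prop

section

variable {K : Type} [Field K]

/-- The quantifier-free part of the `i`-th formula of the fourth kind. -/
def Formula.Matrix (Φ : Formula K) (i : Fin Φ.u) (a b : K) (w : Fin (Φ.c i) → K) : Prop :=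
  Φ.B i fun j => eval (Sum.elim ![a, b] w) (Φ.F i j) = 0

/-- The formula holds for `a` and `b`. -/
def Formula.Holds (Φ : Formula K) (a b : K) : Prop :=
  Union Φ.f Φ.g Φ.S Φ.p Φ.q a b ∨ ∃ i, ∃ w : Fin (Φ.c i) → K, Φ.Matrix i a b w

/-- The polynomials `f` have degree at most three in `(a, z)` and the polynomials `g` have degree at
most two in `(a, z)`. -/
def Formula.SmallDegree (Φ : Formula K) : Prop :=
  (∀ i, ∀ e ∈ (Φ.f i).support, e (Sum.inl 0) + ∑ j, e (Sum.inr j) ≤ 3) ∧
    ∀ i, ∀ e ∈ (Φ.g i).support, e (Sum.inl 0) + ∑ j, e (Sum.inr j) ≤ 2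

/-- For this `b` every formula of the fourth kind has at most one quantifier, or all its witnesses `w`
are algebraic over the field `K(a)`: there are polynomials `G ≠ 0` in two variables with
`G(a, w_i) = 0`. -/
def Formula.AlgebraicWitnesses (Φ : Formula K) (b : K) : Prop :=
  ∀ i, Φ.c i ≤ 1 ∨ ∀ j : Fin (Φ.c i), ∃ G : Polynomial (Polynomial K), G ≠ 0 ∧
    ∀ (a : K) (w : Fin (Φ.c i) → K), Φ.Matrix i a b w → G.evalEval a (w j) = 0

/-- The degrees are small, the sets `S` are blocks for this `b` and the witnesses of the formulas of the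
fourth kind are algebraic. -/
def Formula.AdmissibleAt (Φ : Formula K) (b : K) : Prop :=
  Φ.SmallDegree ∧ (∀ i j, Block (Φ.S i b j)) ∧ Φ.AlgebraicWitnesses b

end

/-- Quadratic equations `∃ z, (1, z)ᵀ A(a, b) (1, z) = 0` over `ℚ`. -/
structure Forms where
  /-- the number of the equations -/
  s : ℕ
  /-- the numbers of their variables `z` -/
  t : Fin s → ℕ
  /-- the matrices -/
  A : ∀ i, Matrix (Fin (t i + 1)) (Fin (t i + 1)) (MvPolynomial (Fin 2 ⊕ Fin 0) ℚ)

/-- One of the equations is solvable. -/
def Forms.Holds (Ψ : Forms) (a b : ℚ) : Prop := ∃ i, Solvable (Ψ.A i) a b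

/-- The matrices are symmetric and have rank at least five for this `b` and some `a`. -/
def Forms.RankFiveAt (Ψ : Forms) (b : ℚ) : Prop :=
  ∀ i, (Ψ.A i).IsSymm ∧ ∃ a, 5 ≤ (spec (Ψ.A i) a b Fin.elim0).rank

theorem result :
    -- (1) over every number field the relation `R_K` is not such a union
    (∀ (K : Type) [Field K] [NumberField K] (D : Set (K × K)) (Φ : Formula K),
      Alg2 K {p | p % 4 = 1} D → {n : ℤ | Φ.AdmissibleAt (n : K)}.Infinite →
      ¬ ∀ a b : K, ((a, b) ∈ D ∨ Φ.Holds a b) ↔ PoleRel K {p | p % 4 = 1} a b) ∧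
    -- (2) over the rational numbers, with quadratic forms of rank at least five
    (∀ (D : Set (ℚ × ℚ)) (Φ : Formula ℚ) (Ψ : Forms),
      Alg2 ℚ {p | p % 4 = 1} D → {n : ℤ | Φ.AdmissibleAt (n : ℚ) ∧ Ψ.RankFiveAt (n : ℚ)}.Infinite →
      ¬ ∀ a b : ℚ, ((a, b) ∈ D ∨ Φ.Holds a b ∨ Ψ.Holds a b) ↔ PoleRel ℚ {p | p % 4 = 1} a b) ∧
    -- (3) the general form, for every rich set of primes and one line `b = n`
    (∀ (K : Type) [Field K] [NumberField K] (Q : Set ℕ), Rich Q → ∀ D : Set (K × K), Alg2 K Q D →
      ∃ B : Set ℤ, B.Finite ∧ ∀ n : ℤ, n ∉ B → ∀ Φ : Formula K, Φ.AdmissibleAt (n : K) →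
        (∀ a : K, ((a, (n : K)) ∈ D ∨ Φ.Holds a n) → PoleRel K Q a n) →
        ∀ a₁ b₁ : ℤ, 0 < b₁ → ∃ a b : ℤ, 0 < b ∧ b₁ ∣ b ∧ b₁ ∣ a - a₁ ∧
          (∀ m : ℤ, b ∣ m - a → PoleRel K Q (m : K) n ∧ ((m : K), (n : K)) ∉ D) ∧
          Thin {s : K | Φ.Holds (a + b * s) n} ∧
          ∀ M : ℤ, ∃ m : ℤ, M < m ∧ b ∣ m - a ∧ PoleRel K Q (m : K) n ∧
            ((m : K), (n : K)) ∉ D ∧ ¬ Φ.Holds (m : K) n) := by
  -- thin sets and the relations of the algebra
  have key : ∀ (K : Type) [Field K] [NumberField K] (Q : Set ℕ), Rich Q →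
      ∀ D : Set (K × K), Alg2 K Q D → ∃ B : Set ℤ, B.Finite ∧ ∀ n : ℤ, n ∉ B →
        ∀ T : Set K, Thin T → (∀ a : K, (a, (n : K)) ∈ D → PoleRel K Q a n) →
        ∀ a₁ b₁ : ℤ, 0 < b₁ → ∃ a b : ℤ, 0 < b ∧ b₁ ∣ b ∧ b₁ ∣ a - a₁ ∧
          (∀ m : ℤ, b ∣ m - a → PoleRel K Q (m : K) n ∧ ((m : K), (n : K)) ∉ D) ∧
          Thin {s : K | (a + b * s : K) ∈ T} ∧
          ∀ M : ℤ, ∃ m : ℤ, M < m ∧ b ∣ m - a ∧ PoleRel K Q (m : K) n ∧
            ((m : K), (n : K)) ∉ D ∧ (m : K) ∉ T := by
    intro K _ _ Q hQ D hD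
    obtain ⟨B, hB, h⟩ := Pool.Agent.V7H87.UN.pole_line Q hQ D hD
    refine ⟨B, hB, fun n hn T hT hDn a₁ b₁ hb₁ => ?_⟩
    obtain ⟨a, b, hb, hbb, haa, hab⟩ := h n hn hDn a₁ b₁ hb₁
    have hbK : (b : K) ≠ 0 := by exact_mod_cast hb.ne'
    have hthin := Pool.Agent.V7H87.UN.thin_pre hT (a : K) (b : K) hbK
    refine ⟨a, b, hb, hbb, haa,
      fun m hm => ⟨Pool.Agent.V7H87.UN.poleRel_int (K := K) Q m (n : K), hab m hm⟩, hthin, fun M => ?_⟩
    obtain ⟨s, hs, hs'⟩ := hthin.exists_int (max 0 (M - a))
    have hs0 : 0 < s := (le_max_left _ _).trans_lt hs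
    have hs1 : M - a < s := (le_max_right _ _).trans_lt hs
    have hdvd : b ∣ (a + b * s) - a := ⟨s, by ring⟩
    refine ⟨a + b * s, ?_, hdvd, Pool.Agent.V7H87.UN.poleRel_int (K := K) Q _ (n : K), hab _ hdvd, ?_⟩
    · nlinarith
    · intro hm
      apply hs'
      change ((a : K) + b * (s : K)) ∈ T
      push_cast at hm
      exact hm
  have thinF : ∀ (K : Type) [Field K] [NumberField K] (Q : Set ℕ), Rich Q → ∀ (Φ : Formula K) (b : K),
      Φ.AdmissibleAt b → (∀ a : K, Φ.Holds a b → PoleRel K Q a b) → Thin {a | Φ.Holds a b} := by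
    intro K _ _ Q hQ Φ b hΦ hs
    exact Pool.Agent.V7H87.UN.thin_main hQ hΦ.1.1 hΦ.1.2 b hΦ.2.1 hΦ.2.2 hs
  refine ⟨?_, ?_, ?_⟩
  · intro K _ _ D Φ hD hinf hiff
    obtain ⟨B, hB, h⟩ := key K _ four D hD
    obtain ⟨n, hn, hnB⟩ := (hinf.sdiff hB).nonempty
    obtain ⟨a, b, -, -, -, -, -, h1⟩ := h n hnB {a | Φ.Holds a n}
      (thinF K _ four Φ n hn fun a ha => (hiff a n).1 (Or.inr ha))
      (fun a ha => (hiff a n).1 (Or.inl ha)) 0 1 one_pos
    obtain ⟨m, -, -, h2, h3, h4⟩ := h1 0
    rcases (hiff m n).2 h2 with h5 | h5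
    · exact h3 h5
    · exact h4 h5
  · intro D Φ Ψ hD hinf hiff
    obtain ⟨B, hB, h⟩ := key ℚ _ four D hD
    obtain ⟨n, hn, hnB⟩ := (hinf.sdiff hB).nonempty
    have hfin : {a | Ψ.Holds a (n : ℚ)}.Finite := by
      have : {a | Ψ.Holds a (n : ℚ)} = ⋃ i, {a | Solvable (Ψ.A i) a (n : ℚ)} := by
        ext a
        simp [Forms.Holds]
      rw [this]
      exact Set.finite_iUnion fun i => Pool.Agent.V7H87.UN.fin_rank5 four (hn.2 i).1 (n : ℚ) (hn.2 i).2
        fun a ha => (hiff a n).1 (Or.inr (Or.inr ⟨i, ha⟩))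
    obtain ⟨a, b, -, -, -, -, -, h1⟩ := h n hnB ({a | Φ.Holds a (n : ℚ)} ∪ {a | Ψ.Holds a (n : ℚ)})
      ((thinF ℚ _ four Φ n hn.1 fun a ha => (hiff a n).1 (Or.inr (Or.inl ha))).union
        (Thin.of_finite hfin))
      (fun a ha => (hiff a n).1 (Or.inl ha)) 0 1 one_pos
    obtain ⟨m, -, -, h2, h3, h4⟩ := h1 0
    rcases (hiff m n).2 h2 with h5 | h5 | h5
    · exact h3 h5
    · exact h4 (Or.inl h5)
    · exact h4 (Or.inr h5)
  · intro K _ _ Q hQ D hD
    obtain ⟨B, hB, h⟩ := key K Q hQ D hD
    refine ⟨B, hB, fun n hn Φ hΦ hs a₁ b₁ hb₁ => ?_⟩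
    exact h n hn {a | Φ.Holds a n} (thinF K Q hQ Φ n hΦ fun a ha => hs a (Or.inr ha))
      (fun a ha => hs a (Or.inl ha)) a₁ b₁ hb₁

end Pool.Agent.Results.MP_a59382_lc.UnionsH87
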